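import Pool.Agent.W737.Ell.Limit
import Pool.Agent.W737.Ell.FinType2
import Pool.Agent.W737.Ell.NotStrong

set_option autoImplicit false

namespace Pool.Agent.Results.MP_63facb_an.EllipsoidSqueezing

open Filter Topology Set Metric
open Pool.Agent.W737.Ell

theorem caseW (k : ℕ) : ∃ W : Submodule ℂ (E (k + 2)), k + 2 - 2 ≤ Module.finrank ℂ W ∧
    ∀ v ∈ W, v ≠ 0 → CTangent (rho k) (pt k) v ∧ 0 < levi (rho k) (pt k) v := by
  let f : E (k + 2) →ₗ[ℂ] ℂ × ℂ :=
    ((EuclideanSpace.proj (0 : Fin (k + 2)) : E (k + 2) →L[ℂ] ℂ) : E (k + 2) →ₗ[ℂ] ℂ).prod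
      ((EuclideanSpace.proj (1 : Fin (k + 2)) : E (k + 2) →L[ℂ] ℂ) : E (k + 2) →ₗ[ℂ] ℂ)
  refine ⟨LinearMap.ker f, ?_, ?_⟩
  · have h1 := LinearMap.finrank_range_add_finrank_ker f
    have h2 : Module.finrank ℂ (LinearMap.range f) ≤ 2 := by
      refine (Submodule.finrank_le _).trans ?_
      rw [Module.finrank_prod]
      simp
    have h3 : Module.finrank ℂ (E (k + 2)) = k + 2 := by simp
    omega
  · intro v hv hv0
    have h1 : f v = 0 := hv
    have h2 : v 0 = 0 := congrArg Prod.fst h1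
    have h3 : v 1 = 0 := congrArg Prod.snd h1
    have h4 : ∀ w : E (k + 2), w 0 = 0 → w 1 = 0 → fderiv ℝ (rho k) (pt k) w = 0 := by
      intro w hw0 hw1
      rw [fderiv_rho, hw1]
      have : inner ℝ (pt k) w = 0 := by
        rw [pt, PiLp.inner_apply]
        apply Finset.sum_eq_zero
        intro i _
        by_cases hi : i = 0
        · rw [hi, hw0, inner_zero_right]
        · simp [hi]
      rw [this, inner_zero_right]
      ring
    refine ⟨⟨h4 v h2 h3, h4 _ ?_ ?_⟩, ?_⟩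
    · change Complex.I * v 0 = 0
      rw [h2, mul_zero]
    · change Complex.I * v 1 = 0
      rw [h3, mul_zero]
    · rw [levi_rho, h3, pt_one]
      have : 0 < ‖v‖ := norm_pos_iff.2 hv0
      have h5 : 0 < ‖v‖ ^ 2 := by positivity
      rw [norm_zero]
      nlinarith

/-- In every dimension `n ≥ 2` there is a bounded convex domain `D ⊆ ℂⁿ` and a boundary point `p`
such that `(D, p)` satisfies (B) and (C) (and also (A) when `n = 2`), `∂D` is not strongly
pseudoconvex at `p`, and yet the squeezing function of `D` tends to `1` along some sequence of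
points of `D` converging to `p`. -/
theorem result : ∀ n : ℕ, 2 ≤ n → ∃ (D : Set (E n)) (p : E n),
    IsOpen D ∧ IsConnected D ∧ Bornology.IsBounded D ∧ p ∈ frontier D ∧
    (n = 2 → CaseA D p) ∧ CaseB D p ∧ CaseC D p ∧
    (∃ z : ℕ → E n, (∀ ν, z ν ∈ D) ∧ Tendsto z atTop (𝓝 p) ∧
      Tendsto (fun ν => squeezing D (z ν)) atTop (𝓝 1)) ∧
    ¬ StronglyPseudoconvexAt D p := by
  intro n hn
  obtain ⟨k, rfl⟩ : ∃ k, n = k + 2 := ⟨n - 2, by omega⟩
  refine ⟨dom k, pt k, isOpen_dom, isConnected_dom, isBounded_dom, pt_mem_frontier, ?_, ?_, ?_,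
    exists_seq k, not_stronglyPseudoconvexAt⟩
  · intro h
    exact ⟨h, {x | x ≠ 0}, rho k, isLocalDefining_rho, fun q _ _ v _ => levi_rho_nonneg q v,
      finiteTypeAt_rho _ rho_pt⟩
  · exact ⟨hn, {x | x ≠ 0}, rho k, isLocalDefining_rho, fun q _ _ v _ => levi_rho_nonneg q v,
      fun q _ hq => finiteTypeAt_rho q hq, caseW k⟩
  · exact ⟨hn, convex_dom, {x | x ≠ 0}, rho k, isLocalDefining_rho,
      fun q _ hq => finiteTypeAt_rho q hq⟩

end Pool.Agent.Results.MP_63facb_an.EllipsoidSqueezing
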